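import Pool.Agent.N929.EG.SzStm

/-!
# Sums over moves and sums over vertices
-/

set_option autoImplicit false

namespace Pool.Agent.N713.EG

open Pool.Agent.N929.EG
open Finset
open scoped Classical

noncomputable section

variable {Ver : Type}

/-- the lists of length `m` with entries in `F` -/
def LL (F : Finset Ver) (m : ℕ) : Finset (List Ver) :=
  (Fintype.piFinset (fun _ : Fin m => F)).image List.ofFn

theorem card_LL (F : Finset Ver) (m : ℕ) : (LL F m).card ≤ F.card ^ m := by
  refine card_image_le.trans ?_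
  rw [Fintype.card_piFinset]
  simp

theorem mem_LL {F : Finset Ver} {m : ℕ} {l : List Ver} (h : l.length = m) (hF : ∀ x ∈ l, x ∈ F) :
    l ∈ LL F m := by
  subst h
  unfold LL
  rw [mem_image]
  refine ⟨fun i => l.get i, ?_, List.ofFn_get l⟩
  rw [Fintype.mem_piFinset]
  intro i
  exact hF _ (List.get_mem l i)

theorem mul : S_MUL := by
  intro Ver X A Z
  refine ⟨((X.g Z.ρ) ^ Z.k * (X.g Z.ρ) ^ (Z.k + Z.s) : ℕ), Nat.cast_nonneg _, ?_⟩
  intro Q w hw hQ f hf
  have hcard : ∀ x, (Q.filter (fun q => hd X q = x)).card ≤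
      (X.g Z.ρ) ^ Z.k * (X.g Z.ρ) ^ (Z.k + Z.s) := by
    intro x
    have hsub : Q.filter (fun q => hd X q = x) ⊆
        (LL (X.bx x Z.ρ) Z.k) ×ˢ (LL (X.bx x Z.ρ) (Z.k + Z.s)) := by
      intro q hq
      rw [mem_filter] at hq
      obtain ⟨hqQ, hx⟩ := hq
      have hT := (hQ q hqQ).1
      obtain ⟨⟨p, r, L, L', h1, h2, -, -⟩, -⟩ := Z.pair _ _ hT
      have hp : hd X q = p := by
        unfold hd; rw [h1]; simp
      rw [hp] at hx
      subst hx
      have hmem : p ∈ q.1 ++ q.2 := by rw [h1]; simp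
      obtain ⟨hl1, hl2⟩ := Z.len _ _ hT
      rw [mem_product]
      exact ⟨mem_LL hl1 fun y hy => Z.loc _ _ hT p hmem y (List.mem_append_left _ hy),
        mem_LL hl2 fun y hy => Z.loc _ _ hT p hmem y (List.mem_append_right _ hy)⟩
    refine (card_le_card hsub).trans ?_
    rw [card_product]
    exact Nat.mul_le_mul
      ((card_LL _ _).trans (Nat.pow_le_pow_left (X.card_bx _ _) _))
      ((card_LL _ _).trans (Nat.pow_le_pow_left (X.card_bx _ _) _))
  have hmaps : ∀ q ∈ Q, hd X q ∈ w.toFinset := fun q hq => List.mem_toFinset.2 (hQ q hq).2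
  rw [← sum_fiberwise_of_maps_to hmaps]
  unfold sm
  rw [← List.sum_toFinset f hw, mul_sum]
  refine sum_le_sum fun x _ => ?_
  have h1 : ∑ q ∈ Q with hd X q = x, f (hd X q) = ∑ q ∈ Q with hd X q = x, f x :=
    sum_congr rfl fun q hq => by rw [(mem_filter.1 hq).2]
  rw [h1, sum_const, nsmul_eq_mul]
  exact mul_le_mul_of_nonneg_right (by exact_mod_cast hcard x) (hf x)

end

end Pool.Agent.N713.EG
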